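import Mathlib
import Pool.Agent.Lib.MP_719c39_co.Core

/-!
# Alternating point-line orderings with separation: both questions have answer yes

`P` is a set of `n` points and `L` a set of `n` directed lines in the plane, no point on a line,
and for every `k`-subset `X` of `P` at least `k - 1` lines of `L` meet the convex hull of `X`.
Then the points and the lines can be ordered as `p₁, l₁, p₂, l₂, …, pₙ, lₙ` so that `pᵢ` is
strictly to the left and `pᵢ₊₁` strictly to the right of `lᵢ` for every `i < n`.
In particular `lᵢ` separates `pᵢ` from `pᵢ₊₁`.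
-/

open Finset

namespace Pool.Agent.Results.MP_719c39_co.LeftRightOrdering

/-- The Euclidean plane. -/
abbrev Plane : Type := EuclideanSpace ℝ (Fin 2)

/-- The cross product `u₀ x₁ - u₁ x₀` of two plane vectors. -/
def cross (u x : Plane) : ℝ := u 0 * x 1 - u 1 * x 0

/-- A directed line in the plane, given by its unit direction vector `dir` and its offset `off`:
its underlying line is `{x | cross dir x = off}`. The line through `a` with unit direction `u`
is the one with `dir = u` and `off = cross u a` (see `carrier_through`), so that every directed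
line has exactly one such description. -/
structure DirectedLine where
  /-- the unit direction vector -/
  dir : Plane
  /-- the offset -/
  off : ℝ
  /-- the direction vector has length one -/
  norm_dir : ‖dir‖ = 1

/-- The set of points on the directed line. -/
def DirectedLine.carrier (l : DirectedLine) : Set Plane := {x | cross l.dir x = l.off}

/-- The open half-plane to the left of the directed line. -/
def DirectedLine.left (l : DirectedLine) : Set Plane := {x | l.off < cross l.dir x}

/-- The open half-plane to the right of the directed line. -/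
def DirectedLine.right (l : DirectedLine) : Set Plane := {x | cross l.dir x < l.off}

/-- Sanity check: the directed line with direction `u` and offset `cross u a` is the line through
`a` in direction `u`. -/
theorem carrier_through (u a : Plane) (hu : ‖u‖ = 1) :
    (DirectedLine.mk u (cross u a) hu).carrier = Set.range (fun t : ℝ => a + t • u) := by
  have hu2 : u 0 * u 0 + u 1 * u 1 = 1 := by
    have h := EuclideanSpace.norm_eq u
    rw [hu, Fin.sum_univ_two] at h
    have h2 : ‖u 0‖ ^ 2 + ‖u 1‖ ^ 2 = 1 := by
      have h3 : (1 : ℝ) ^ 2 = (√(‖u 0‖ ^ 2 + ‖u 1‖ ^ 2)) ^ 2 := by rw [← h]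
      rw [Real.sq_sqrt (by positivity)] at h3
      linarith
    simp only [Real.norm_eq_abs, sq_abs] at h2
    nlinarith [h2]
  ext x
  simp only [DirectedLine.carrier, Set.mem_ofPred_eq, Set.mem_range, cross]
  constructor
  · intro h
    refine ⟨(x 0 - a 0) * u 0 + (x 1 - a 1) * u 1, ?_⟩
    ext i
    fin_cases i
    · simp only [Fin.zero_eta, PiLp.add_apply, PiLp.smul_apply, smul_eq_mul]
      linear_combination (x 0 - a 0) * hu2 + u 1 * h
    · simp only [Fin.mk_one, PiLp.add_apply, PiLp.smul_apply, smul_eq_mul]
      linear_combination (x 1 - a 1) * hu2 - u 0 * h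
  · rintro ⟨t, rfl⟩
    simp only [PiLp.add_apply, PiLp.smul_apply, smul_eq_mul]
    ring

/-- Sanity check: moving from a point of the line by the direction vector turned by a quarter turn
counterclockwise leads into the left half-plane. -/
theorem mem_left_of_quarter_turn (u a : Plane) (hu : ‖u‖ = 1) :
    (a + !₂[-u 1, u 0] : Plane) ∈ (DirectedLine.mk u (cross u a) hu).left := by
  have hu2 : u 0 * u 0 + u 1 * u 1 = 1 := by
    have h := EuclideanSpace.norm_eq u
    rw [hu, Fin.sum_univ_two] at h
    have h2 : ‖u 0‖ ^ 2 + ‖u 1‖ ^ 2 = 1 := by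
      have h3 : (1 : ℝ) ^ 2 = (√(‖u 0‖ ^ 2 + ‖u 1‖ ^ 2)) ^ 2 := by rw [← h]
      rw [Real.sq_sqrt (by positivity)] at h3
      linarith
    simp only [Real.norm_eq_abs, sq_abs] at h2
    nlinarith [h2]
  simp only [DirectedLine.left, Set.mem_ofPred_eq, cross, PiLp.add_apply]
  simp
  nlinarith [hu2]

lemma cross_isLinearMap (u : Plane) : IsLinearMap ℝ (cross u) := by
  constructor
  · intro x y
    simp only [cross, PiLp.add_apply]; ring
  · intro c x
    simp only [cross, PiLp.smul_apply, smul_eq_mul]; ring

/-- A line that misses the points of `X` and meets its convex hull has points of `X` on both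
sides. -/
lemma splits_of_meets (l : DirectedLine) (X : Set Plane) (hX : ∀ x ∈ X, x ∉ l.carrier)
    (h : (l.carrier ∩ convexHull ℝ X).Nonempty) :
    (∃ x ∈ X, x ∈ l.left) ∧ (∃ x ∈ X, x ∉ l.left) := by
  obtain ⟨z, hz1, hz2⟩ := h
  simp only [DirectedLine.carrier, Set.mem_ofPred_eq] at hz1
  constructor
  · by_contra hcon
    push Not at hcon
    have h1 : X ⊆ {w | cross l.dir w < l.off} := by
      intro x hx
      have h2 := hX x hx
      have h3 := hcon x hx
      simp only [DirectedLine.carrier, DirectedLine.left, Set.mem_ofPred_eq, not_lt] at h2 h3 ⊢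
      exact lt_of_le_of_ne h3 h2
    have h2 := convexHull_min h1 (convex_halfSpace_lt (cross_isLinearMap l.dir) l.off) hz2
    simp only [Set.mem_ofPred_eq] at h2
    linarith
  · by_contra hcon
    push Not at hcon
    have h1 : X ⊆ {w | l.off < cross l.dir w} := fun x hx => hcon x hx
    have h2 := convexHull_min h1 (convex_halfSpace_gt (cross_isLinearMap l.dir) l.off) hz2
    simp only [Set.mem_ofPred_eq] at h2
    linarith

/-- **Answer to Q2 (and hence to Q1): yes.** A configuration of `n` points and `n` directed lines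
in general position satisfying the deficiency-one hull condition has an alternating ordering
`p₁, l₁, …, pₙ, lₙ` with `pᵢ` on the left and `pᵢ₊₁` on the right of `lᵢ` for all `i < n`. -/
theorem result (n : ℕ) (P : Finset Plane) (L : Finset DirectedLine)
    (hP : P.card = n) (hL : L.card = n)
    (hgen : ∀ p ∈ P, ∀ l ∈ L, p ∉ l.carrier)
    (hhull : ∀ X : Finset Plane, X ⊆ P →
      X.card - 1 ≤ Set.ncard {l : DirectedLine | l ∈ L ∧
        (l.carrier ∩ convexHull ℝ (X : Set Plane)).Nonempty}) :
    ∃ (p : Fin n ≃ {x : Plane // x ∈ P}) (l : Fin n ≃ {m : DirectedLine // m ∈ L}),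
      ∀ (i : ℕ) (hi : i + 1 < n),
        (p ⟨i, Nat.lt_of_succ_lt hi⟩ : Plane) ∈
          (l ⟨i, Nat.lt_of_succ_lt hi⟩ : DirectedLine).left ∧
        (p ⟨i + 1, hi⟩ : Plane) ∈
          (l ⟨i, Nat.lt_of_succ_lt hi⟩ : DirectedLine).right := by
  classical
  let A : {m : DirectedLine // m ∈ L} → {x : Plane // x ∈ P} → Prop :=
    fun l x => (x : Plane) ∈ (l : DirectedLine).left
  have hull : ∀ X : Finset {x : Plane // x ∈ P},
      X.card ≤ (Pool.Agent.Lib.MP_719c39_co.splitSet A X).card + 1 := by
    intro X
    let Y : Finset Plane := X.map (Function.Embedding.subtype _)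
    have hY : Y ⊆ P := by
      intro y hy
      simp only [Y, mem_map, Function.Embedding.coe_subtype] at hy
      obtain ⟨x, _, rfl⟩ := hy
      exact x.2
    have hYc : Y.card = X.card := card_map _
    have h1 := hhull Y hY
    have h2 : {l : DirectedLine | l ∈ L ∧ (l.carrier ∩ convexHull ℝ (Y : Set Plane)).Nonempty} ⊆
        (((Pool.Agent.Lib.MP_719c39_co.splitSet A X).map (Function.Embedding.subtype _) :
          Finset DirectedLine) : Set DirectedLine) := by
      rintro l ⟨hl, hmeet⟩
      have h3 := splits_of_meets l (Y : Set Plane)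
        (fun x hx => hgen x (hY (by exact_mod_cast hx)) l hl) hmeet
      rw [mem_coe, mem_map]
      refine ⟨⟨l, hl⟩, ?_, rfl⟩
      rw [Pool.Agent.Lib.MP_719c39_co.mem_splitSet]
      obtain ⟨⟨x, hx, hx'⟩, ⟨y, hy, hy'⟩⟩ := h3
      rw [mem_coe, mem_map] at hx hy
      obtain ⟨x0, hx0, rfl⟩ := hx
      obtain ⟨y0, hy0, rfl⟩ := hy
      exact ⟨⟨x0, hx0, hx'⟩, ⟨y0, hy0, hy'⟩⟩
    have h4 := Set.ncard_le_ncard h2 (Finset.finite_toSet _)
    rw [Set.ncard_coe_finset, card_map] at h4
    omega
  obtain ⟨p, l, hpl⟩ := Pool.Agent.Lib.MP_719c39_co.exists_alternating A n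
    (by simp [hP]) (by simp [hL]) hull
  refine ⟨p, l, ?_⟩
  intro i hi
  obtain ⟨h1, h2⟩ := hpl i hi
  refine ⟨h1, ?_⟩
  have h3 := hgen _ (p ⟨i + 1, hi⟩).2 _ (l ⟨i, Nat.lt_of_succ_lt hi⟩).2
  simp only [A, DirectedLine.left, Set.mem_ofPred_eq, not_lt] at h2
  simp only [DirectedLine.carrier, Set.mem_ofPred_eq] at h3
  simp only [DirectedLine.right, Set.mem_ofPred_eq]
  exact lt_of_le_of_ne h2 h3

end Pool.Agent.Results.MP_719c39_co.LeftRightOrdering
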